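import Pool.Agent.Helper79_TOR.Stmts

/-! T2-STAB block of team TOR: module ZER -/

set_option autoImplicit false

namespace Pool.Agent.TST.H90

open Pointwise Set CategoryTheory Rep Pool.Agent.TOR Pool.Agent.TOR.H58

section

variable {ι δ κ : Type}

/-- the extension of an automorphism is psi φ 1 1 -/
theorem upE_eq_psi (φ : MulAut (FreeGroup ι)) :
    upE (inE ι δ) φ = psi φ (fun _ => 1) (fun _ => 1) := by
  ext x
  have h : (upE (inE ι δ) φ).toMonoidHom = (psi (δ := δ) φ (fun _ => 1) (fun _ => 1)).toMonoidHom := by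
    refine fx fun b => ?_
    change upE (inE ι δ) φ (FreeGroup.of b) = psi (δ := δ) φ (fun _ => 1) (fun _ => 1) (FreeGroup.of b)
    rcases b with i | d
    · have h1 : (FreeGroup.of (Sum.inl i : ι ⊕ δ)) = jn δ (FreeGroup.of i) := by
        rw [mof]
      rw [h1, psi_jn]
      exact upE_map (inE ι δ) φ (FreeGroup.of i)
    · rw [psi_t, upE_new (inE ι δ) φ (Sum.inr d) (fun i => Sum.inl_ne_inr), map_one, one_mul,
        mul_one]
  exact DFunLike.congr_fun h x

/-- the trivial data satisfy IsGam -/
theorem isGam_trivial (z : ι) (E : κ → Set (FreeGroup ι)) :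
    IsGam z E Set.univ 1 (fun _ => (1 : FreeGroup ι)) where
  mem _ := (A0 E).one_mem
  img φ := by
    rw [one_smul]
    exact Set.image_univ_of_surjective (MulEquiv.surjective _)
  coc φ ψ := by rw [map_one, one_mul]
  sim φ := by
    rw [map_one, mul_one, mul_one, inv_one]
    exact (RSt (Set.univ : Set (FreeGroup ι))).one_mem
  stA φ a ha := by
    rw [mem_A0] at ha ⊢
    intro j y
    obtain ⟨g, hg⟩ := φ.2 j
    set f : MulAut (FreeGroup ι) := ((φ : Gp z) : MulAut (FreeGroup ι)) with hf
    have key : ∀ w : FreeGroup ι, w ∈ E j ↔ f.symm (g * w) ∈ E j := by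
      intro w
      constructor
      · intro hw
        have h1 : g * w ∈ g • E j := Set.smul_mem_smul_set hw
        rw [← hg] at h1
        obtain ⟨u, hu, hu2⟩ := h1
        rw [← hu2, MulEquiv.symm_apply_apply]
        exact hu
      · intro hw
        have h1 : f (f.symm (g * w)) ∈ f '' E j := ⟨_, hw, rfl⟩
        rw [MulEquiv.apply_symm_apply] at h1
        have h2 : g * w ∈ g • E j := by rw [← hg]; exact h1
        exact (Set.smul_mem_smul_set_iff (a := g)).1 h2
    rw [key (y * f a), key y, ← mul_assoc, map_mul, MulEquiv.symm_apply_apply]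
    exact ha j _
  stD φ a _ y := by simp

end

/-- ZER -/
theorem zer (hI : IOH) (hZ : ZAB) : ZER := by
  classical
  intro t R _ ι δ _ _ z χ κ E hE d hd sx hsx f hf
  let b : δ → FreeGroup ι := fun d' => if d' = d then FreeGroup.of z else 1
  have hzA : FreeGroup.of z ∈ A0 E := mem_A0.2 hE.zin
  have hb : ∀ d', b d' ∈ A0 E := by
    intro d'
    change (if d' = d then FreeGroup.of z else 1) ∈ A0 E
    split_ifs
    · exact hzA
    · exact (A0 E).one_mem
  obtain ⟨hG, hS⟩ := (hI ι δ κ z E Set.univ 1 (fun _ => 1) (isGam_trivial z E)).2 (fun _ => 1) b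
    (fun _ => (A0 E).one_mem) hb (by
      intro d' y hy
      rw [one_mul]
      change expo y (if d' = d then FreeGroup.of z else 1) = 1
      split_ifs
      · rw [expo, FreeGroup.lift_apply_of, if_neg (fun h => hy h.symm)]
      · exact map_one _)
  let Z : GS (Sum.inl z) (plF δ E) := ⟨⟨psi 1 (fun _ => 1) b, hG⟩, hS⟩
  refine hZ R (GS z E) (GS (Sum.inl z) (plF δ E)) sx Z ?_ (chG (Sum.inl z) χ (plF δ E))
    (χ (Sum.inr d) : R) hd ?_ (chG z (fun i => χ (Sum.inl i)) E) f t
  · intro g
    apply Subtype.ext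
    apply Subtype.ext
    have h0 : (sx g).1.1 = upE (inE ι δ) ((g : Gp z) : MulAut (FreeGroup ι)) :=
      congrArg Subtype.val (hsx g)
    change psi 1 (fun _ => 1) b * (sx g).1.1 = (sx g).1.1 * psi 1 (fun _ => 1) b
    rw [h0]
    change psi 1 (fun _ => 1) b * upE (inE ι δ) ((g : Gp z) : MulAut (FreeGroup ι)) =
      upE (inE ι δ) ((g : Gp z) : MulAut (FreeGroup ι)) * psi 1 (fun _ => 1) b
    rw [upE_eq_psi, psi_mul, psi_mul, one_mul, mul_one]
    congr 1
    · funext d'
      simp
    · funext d'
      change b d' * (1 : MulAut (FreeGroup ι)) 1 = 1 * ((g : Gp z) : MulAut (FreeGroup ι)) (b d')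
      rw [map_one, mul_one, one_mul]
      change (if d' = d then FreeGroup.of z else 1) =
        ((g : Gp z) : MulAut (FreeGroup ι)) (if d' = d then FreeGroup.of z else 1)
      split_ifs
      · exact (g.1.2.1).symm
      · rw [map_one]
  · intro a
    have key : chr (Sum.inl z) χ ⟨psi 1 (fun _ => 1) b, hG⟩ = χ (Sum.inr d) := ?_
    · have h2 : (chR (Sum.inl z) χ ⟨psi 1 (fun _ => 1) b, hG⟩ : R) = (χ (Sum.inr d) : R) :=
        congrArg Units.val key
      have h3 : ∀ r : R, (chR (Sum.inl z) χ ⟨psi 1 (fun _ => 1) b, hG⟩ : R) * r =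
          (χ (Sum.inr d) : R) • r := by
        intro r
        rw [h2, smul_eq_mul]
      exact h3 a
    rw [chr_apply, Finset.prod_eq_single (Sum.inr d)]
    · have : eff (Sum.inl z) (psi 1 (fun _ => 1) b) (FreeGroup.of (Sum.inr d)) = 1 := by
        unfold eff
        rw [psi_t, map_one, one_mul, map_mul]
        have h1 : b d = FreeGroup.of z := if_pos rfl
        rw [h1]
        have h2 : expo (Sum.inl z : ι ⊕ δ) (jn δ (FreeGroup.of z)) = expo z (FreeGroup.of z) :=
          expo_map (inE ι δ) z _
        rw [h2]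
        have h3 : expo z (FreeGroup.of z) = Multiplicative.ofAdd 1 := by
          rw [expo, FreeGroup.lift_apply_of, if_pos rfl]
        rw [h3, toAdd_mul, toAdd_ofAdd]
        ring
      rw [this, zpow_one]
    · rintro (i | d') _ hne
      · have : eff (Sum.inl z) (psi 1 (fun _ => 1) b) (FreeGroup.of (Sum.inl i)) = 0 := by
          have h1 : (FreeGroup.of (Sum.inl i : ι ⊕ δ)) = jn δ (FreeGroup.of i) := by
            rw [mof]
          unfold eff
          rw [h1, psi_jn]
          exact sub_self _
        rw [this, zpow_zero]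
      · have : eff (Sum.inl z) (psi 1 (fun _ => 1) b) (FreeGroup.of (Sum.inr d')) = 0 := by
          have h1 : b d' = 1 := if_neg fun h => hne (by rw [h])
          unfold eff
          rw [psi_t, h1, map_one, one_mul, mul_one, sub_self]
        rw [this, zpow_zero]
    · intro h
      exact absurd (Finset.mem_univ _) h

end Pool.Agent.TST.H90
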